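import Pool.Agent.helper95.PY2.Spec

/-!
# Row GEO of py2: the geometric sum
-/

set_option autoImplicit false

open Finset

namespace Pool.Agent.PY2

/-- The additive character at an integer. -/
theorem GEO_ps_int {p : ℕ} [NeZero p] (m : ℤ) :
    ps ((m : ℤ) : ZMod p) = Complex.exp (Complex.I * ((2 * Real.pi * m / p : ℝ) : ℂ)) := by
  rw [ps, ZMod.stdAddChar_coe]
  congr 1
  push_cast
  ring

/-- Lower bound for `|ps y - 1|`. -/
theorem GEO_lower {p : ℕ} [NeZero p] (y : ZMod p) :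
    4 * |(y.valMinAbs : ℝ)| ≤ p * ‖ps y - 1‖ := by
  have hp0 : 0 < p := Nat.pos_of_ne_zero (NeZero.ne p)
  have hp : (0 : ℝ) < p := by exact_mod_cast hp0
  have h1 : ps y = Complex.exp (Complex.I * ((2 * Real.pi * y.valMinAbs / p : ℝ) : ℂ)) := by
    rw [← GEO_ps_int, ZMod.coe_valMinAbs]
  rw [h1, Complex.norm_exp_I_mul_ofReal_sub_one]
  set m : ℤ := y.valMinAbs with hm
  have h2 : |(m : ℝ)| * 2 ≤ p := by
    have h3 := ZMod.natAbs_valMinAbs_le y
    have h4 : m.natAbs * 2 ≤ p := by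
      rw [hm]
      omega
    have h5 : ((m.natAbs : ℕ) : ℝ) * 2 ≤ p := by exact_mod_cast h4
    rwa [Nat.cast_natAbs, Int.cast_abs] at h5
  have h6 : ‖2 * Real.sin (2 * Real.pi * m / p / 2)‖ = 2 * Real.sin (Real.pi * |(m : ℝ)| / p) := by
    have hx0 : 0 ≤ Real.pi * |(m : ℝ)| / p := by positivity
    have hx1 : Real.pi * |(m : ℝ)| / p ≤ Real.pi := by
      rw [div_le_iff₀ hp]
      have : |(m : ℝ)| ≤ p := by
        have := abs_nonneg (m : ℝ)
        linarith
      exact mul_le_mul_of_nonneg_left this Real.pi_pos.le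
    have hs : 0 ≤ Real.sin (Real.pi * |(m : ℝ)| / p) := Real.sin_nonneg_of_nonneg_of_le_pi hx0 hx1
    rw [norm_mul, Real.norm_eq_abs, Real.norm_eq_abs, abs_of_pos (by norm_num : (0 : ℝ) < 2)]
    congr 1
    have e : 2 * Real.pi * m / p / 2 = Real.pi * m / p := by ring
    rw [e]
    rcases le_total 0 (m : ℝ) with h | h
    · rw [abs_of_nonneg h] at hs ⊢
      exact abs_of_nonneg hs
    · rw [abs_of_nonpos h] at hs ⊢
      have e2 : Real.pi * -(m : ℝ) / p = -(Real.pi * m / p) := by ring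
      rw [e2, Real.sin_neg] at hs ⊢
      exact abs_of_nonpos (by linarith)
  rw [h6]
  have h7 : 2 / Real.pi * (Real.pi * |(m : ℝ)| / p) ≤ Real.sin (Real.pi * |(m : ℝ)| / p) := by
    apply Real.mul_le_sin
    · positivity
    · rw [div_le_iff₀ hp]
      have := mul_le_mul_of_nonneg_left h2 Real.pi_pos.le
      linarith
  have h8 : 2 / Real.pi * (Real.pi * |(m : ℝ)| / p) = 2 * |(m : ℝ)| / p := by
    field_simp
  rw [h8, div_le_iff₀ hp] at h7
  linarith

/-- Row GEO. -/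
theorem GEO : GEO_stmt := by
  intro p hp R y
  have hp0 : 0 < p := hp.out.pos
  have hpr : (0 : ℝ) < p := by exact_mod_cast hp0
  have h1 := GEO_lower y
  have h2 : ∀ r : ℕ, ps ((r : ZMod p) * y) = ps y ^ r := by
    intro r
    rw [ps, ps, ← AddChar.map_nsmul_eq_pow, nsmul_eq_mul]
  have h3 : (∑ r ∈ range R, ps ((r : ZMod p) * y)) * (ps y - 1) = ps y ^ R - 1 := by
    rw [← geom_sum_mul]
    congr 1
    exact Finset.sum_congr rfl fun r _ => h2 r
  have h4 : ‖ps y‖ = 1 := by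
    rw [ps]
    exact AddChar.norm_apply _ _
  have h5 : ‖ps y ^ R - 1‖ ≤ 2 := by
    calc ‖ps y ^ R - 1‖ ≤ ‖ps y ^ R‖ + ‖(1 : ℂ)‖ := norm_sub_le _ _
      _ = 2 := by
        rw [norm_pow, h4, one_pow, norm_one]
        norm_num
  rw [← h3, norm_mul] at h5
  set S := ‖∑ r ∈ range R, ps ((r : ZMod p) * y)‖ with hS
  have hS0 : 0 ≤ S := norm_nonneg _
  have h6 := mul_le_mul_of_nonneg_right h1 hS0
  have h7 := mul_le_mul_of_nonneg_left h5 hpr.le
  have e1 : (p : ℝ) * (S * ‖ps y - 1‖) = p * ‖ps y - 1‖ * S := by ring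
  rw [e1] at h7
  linarith

end Pool.Agent.PY2
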